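import Pool.Agent.Mob.Stmts

/-!
# AFF: reverse Hölder inequality for quotients of affine functions
-/

set_option autoImplicit false
set_option linter.unusedSectionVars false

open MeasureTheory ProbabilityTheory Function

open scoped ENNReal BigOperators

noncomputable section

namespace Pool.Agent.Mob.H85

open Pool.Agent.Anderson Pool.Agent.Loc Pool.Agent.Helper54.Bal Pool.Agent.Mob

theorem gl_one : gl 1 = γ1 := by
  unfold gl
  simp

theorem bdd1 : BddDens γ1 1 := by
  have h := bddDens_gl (σ := 1) one_ne_zero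
  rw [gl_one] at h
  simpa using h

/-- the small ball estimate for a normalised affine function -/
theorem ball {a b s : ℝ} (hab : |a| + |b| = 1) (hs : 0 < s) :
    γ1 {t | |a + b * t| ≤ s} ≤ ENNReal.ofReal (8 * s) := by
  by_cases h8 : 1 / 8 ≤ s
  · refine prob_le_one.trans ?_
    rw [← ENNReal.ofReal_one]
    apply ENNReal.ofReal_le_ofReal
    linarith
  push Not at h8
  by_cases hb0 : b = 0
  · have h1 : |a| = 1 := by rw [hb0, abs_zero, add_zero] at hab; exact hab
    have h2 : {t : ℝ | |a + b * t| ≤ s} = ∅ := by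
      ext t
      simp only [Set.mem_ofPred_eq, Set.mem_empty_iff_false, iff_false, not_le]
      rw [hb0, zero_mul, add_zero, h1]
      linarith
    rw [h2, measure_empty]
    exact zero_le
  have hb : 0 < |b| := abs_pos.2 hb0
  have hsub : {t : ℝ | |a + b * t| ≤ s} ⊆ Set.Icc (-(a / b) - s / |b|) (-(a / b) + s / |b|) := by
    intro t ht
    rw [Set.mem_ofPred_eq] at ht
    have h1 : a + b * t = b * (t + a / b) := by field_simp; ring
    rw [h1, abs_mul] at ht
    have h2 : |t + a / b| ≤ s / |b| := by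
      rw [le_div_iff₀ hb, mul_comm]
      exact ht
    have h3 := abs_le.1 h2
    constructor <;> linarith
  by_cases hb4 : 1 / 4 ≤ |b|
  · refine (measure_mono hsub).trans ((bdd1.2 _ _).trans ?_)
    apply ENNReal.ofReal_le_ofReal
    have h1 : s / |b| ≤ 4 * s := by
      rw [div_le_iff₀ hb]
      nlinarith
    linarith
  push Not at hb4
  have hm : MeasurableSet {t : ℝ | |a + b * t| ≤ s} := by
    apply measurableSet_le
    · fun_prop
    · exact measurable_const
  rw [gaussianReal_apply _ one_ne_zero]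
  have hpt : ∀ t ∈ {t : ℝ | |a + b * t| ≤ s}, gaussianPDF 0 1 t ≤
      ENNReal.ofReal (128 * b ^ 2 / 25) := by
    intro t ht
    rw [Set.mem_ofPred_eq] at ht
    have h1 : 5 / 8 ≤ |b * t| := by
      have h2 : |a| ≤ |a + b * t| + |b * t| := by
        have h3 := abs_sub (a + b * t) (b * t)
        have h4 : a + b * t - b * t = a := by ring
        rw [h4] at h3
        exact h3
      linarith
    have ht2 : 25 / 64 ≤ b ^ 2 * t ^ 2 := by
      have h2 : (5 / 8 : ℝ) ^ 2 ≤ |b * t| ^ 2 := by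
        apply pow_le_pow_left₀ (by norm_num) h1
      rw [sq_abs, mul_pow] at h2
      linarith
    unfold gaussianPDF
    apply ENNReal.ofReal_le_ofReal
    unfold gaussianPDFReal
    have e1 : Real.exp (-(t - 0) ^ 2 / (2 * ((1 : NNReal) : ℝ))) ≤ 128 * b ^ 2 / 25 := by
      have e3 : -(t - 0) ^ 2 / (2 * ((1 : NNReal) : ℝ)) = -(t ^ 2 / 2) := by
        rw [sub_zero, NNReal.coe_one, mul_one, neg_div]
      rw [e3, Real.exp_neg]
      have e4 : t ^ 2 / 2 ≤ Real.exp (t ^ 2 / 2) := by
        have := Real.add_one_le_exp (t ^ 2 / 2)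
        linarith
      have ht0 : 0 < t ^ 2 := by
        by_contra hcon
        have : t ^ 2 = 0 := le_antisymm (not_lt.1 hcon) (sq_nonneg t)
        rw [this, mul_zero] at ht2
        norm_num at ht2
      have e5 : (Real.exp (t ^ 2 / 2))⁻¹ ≤ (t ^ 2 / 2)⁻¹ :=
        inv_anti₀ (by positivity) e4
      refine e5.trans ?_
      rw [inv_le_iff_one_le_mul₀ (by positivity)]
      nlinarith
    have e2 : (√(2 * Real.pi * ((1 : NNReal) : ℝ)))⁻¹ ≤ 1 := by
      apply inv_le_one_of_one_le₀
      rw [Real.one_le_sqrt, NNReal.coe_one]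
      have := Real.pi_gt_three
      linarith
    calc _ ≤ 1 * (128 * b ^ 2 / 25) := mul_le_mul e2 e1 (Real.exp_pos _).le zero_le_one
      _ = _ := one_mul _
  calc ∫⁻ t in {t : ℝ | |a + b * t| ≤ s}, gaussianPDF 0 1 t
      ≤ ∫⁻ _t in {t : ℝ | |a + b * t| ≤ s}, ENNReal.ofReal (128 * b ^ 2 / 25) :=
        setLIntegral_mono measurable_const hpt
    _ ≤ ENNReal.ofReal (128 * b ^ 2 / 25) * ENNReal.ofReal (2 * s / |b|) := by
        rw [setLIntegral_const]
        apply mul_le_mul_right
        refine (measure_mono hsub).trans ?_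
        rw [Real.volume_Icc]
        apply ENNReal.ofReal_le_ofReal
        apply le_of_eq
        ring
    _ ≤ _ := by
        rw [← ENNReal.ofReal_mul (by positivity)]
        apply ENNReal.ofReal_le_ofReal
        have h1 : 128 * b ^ 2 / 25 * (2 * s / |b|) = 256 / 25 * |b| * s := by
          rw [← sq_abs b]
          field_simp
          ring
        rw [h1]
        nlinarith

theorem p8_pow4 (t : ℝ) : (p8 t ^ 2) ^ 2 = ENNReal.ofReal (√|t|) := by
  unfold p8
  rw [← pow_mul, ← ENNReal.ofReal_pow (by positivity)]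
  congr 1
  rw [← Real.rpow_natCast, ← Real.rpow_mul (abs_nonneg _), Real.sqrt_eq_rpow]
  norm_num

theorem mul_le_sq_add_sq (x y : ℝ≥0∞) : x * y ≤ x ^ 2 + y ^ 2 := by
  rcases le_total x y with h | h
  · calc x * y ≤ y * y := mul_le_mul_left h y
      _ = y ^ 2 := (sq y).symm
      _ ≤ _ := le_add_self
  · calc x * y ≤ x * x := mul_le_mul_right h x
      _ = x ^ 2 := (sq x).symm
      _ ≤ _ := le_self_add

/-- first moment -/
def M0 : ℝ := ∫ t, (1 + |t|) ^ 1 ∂γ1

theorem int_sqrtP {a b : ℝ} (hab : |a| + |b| = 1) :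
    ∫⁻ t, ENNReal.ofReal (√|a + b * t|) ∂γ1 ≤ ENNReal.ofReal M0 := by
  unfold M0
  rw [ofReal_integral_eq_lintegral_ofReal (integrable_poly_gauss 1)
    (Filter.Eventually.of_forall fun t => by positivity)]
  apply lintegral_mono
  intro t
  apply ENNReal.ofReal_le_ofReal
  have h1 : |a + b * t| ≤ 1 + |t| := by
    have h2 := abs_add_le a (b * t)
    rw [abs_mul] at h2
    have ha : |a| ≤ 1 := by have := abs_nonneg b; linarith
    have hb : |b| ≤ 1 := by have := abs_nonneg a; linarith
    have := abs_nonneg t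
    nlinarith
  rw [pow_one]
  have h3 : 1 ≤ 1 + |t| := by have := abs_nonneg t; linarith
  calc √|a + b * t| ≤ √(1 + |t|) := Real.sqrt_le_sqrt h1
    _ ≤ √((1 + |t|) ^ 2) := by
        apply Real.sqrt_le_sqrt
        nlinarith
    _ = 1 + |t| := Real.sqrt_sq (by positivity)

theorem int_sqrtQ {a b : ℝ} (hab : |a| + |b| = 1) :
    ∫⁻ t, ENNReal.ofReal (√|(a + b * t)⁻¹|) ∂γ1 ≤ ENNReal.ofReal 9 := by
  have hm : Measurable fun t : ℝ => (a + b * t)⁻¹ := by fun_prop
  have h := weak_sqrt (m := γ1) hm (B := Set.univ) (c := 8) (by norm_num) ?_ (a := 1) one_pos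
  · rw [Measure.restrict_univ, measure_univ, mul_one,
      ← ENNReal.ofReal_add (by norm_num) (by norm_num)] at h
    refine h.trans (ENNReal.ofReal_le_ofReal ?_)
    norm_num
  · intro τ hτ
    have h1 := ball hab (s := 1 / τ) (by positivity)
    have h2 : (8 : ℝ) / τ = 8 * (1 / τ) := by ring
    rw [h2]
    refine (measure_mono ?_).trans h1
    intro t ht
    rw [Set.mem_ofPred_eq, abs_inv] at ht
    rw [Set.mem_ofPred_eq]
    have hpos : 0 < |a + b * t| := by
      by_contra hcon
      have h0 : |a + b * t| = 0 := le_antisymm (not_lt.1 hcon) (abs_nonneg _)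
      rw [h0, inv_zero] at ht
      linarith
    rw [lt_inv_comm₀ hτ hpos] at ht
    rw [one_div]
    exact ht.le

theorem M0_nonneg : 0 ≤ M0 := by
  unfold M0
  apply integral_nonneg
  intro t
  positivity

theorem upper {a b c e : ℝ} (hab : |a| + |b| = 1) (hce : |c| + |e| = 1) :
    ∫⁻ t, p8 ((a + b * t) / (c + e * t)) ^ 2 ∂γ1 ≤ ENNReal.ofReal (M0 + 9) := by
  have h1 : ∀ t : ℝ, p8 ((a + b * t) / (c + e * t)) ^ 2 ≤
      ENNReal.ofReal (√|a + b * t|) + ENNReal.ofReal (√|(c + e * t)⁻¹|) := by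
    intro t
    rw [div_eq_mul_inv, p8_mul, mul_pow, ← p8_pow4, ← p8_pow4]
    exact mul_le_sq_add_sq _ _
  refine (lintegral_mono h1).trans ?_
  rw [lintegral_add_left (by fun_prop), ENNReal.ofReal_add M0_nonneg (by norm_num)]
  exact add_le_add (int_sqrtP hab) (int_sqrtQ hce)

theorem lower {a b c e : ℝ} (hab : |a| + |b| = 1) (hce : |c| + |e| = 1) :
    p8 (1 / 160) * ENNReal.ofReal (1 / 2) ≤ ∫⁻ t, p8 ((a + b * t) / (c + e * t)) ∂γ1 := by
  set S : Set ℝ := {t | 1 / 32 < |a + b * t|} ∩ ({t | |t| ≤ 4} ∩ {t | 1 / 64 < |c + e * t|}) with hS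
  have m1 : MeasurableSet {t : ℝ | 1 / 32 < |a + b * t|} :=
    measurableSet_lt measurable_const (by fun_prop)
  have m2 : MeasurableSet {t : ℝ | |t| ≤ 4} := measurableSet_le (by fun_prop) measurable_const
  have m3 : MeasurableSet {t : ℝ | 1 / 64 < |c + e * t|} :=
    measurableSet_lt measurable_const (by fun_prop)
  have mS : MeasurableSet S := m1.inter (m2.inter m3)
  have hcompl : γ1 Sᶜ ≤ ENNReal.ofReal (1 / 2) := by
    have hsub : Sᶜ ⊆ {t : ℝ | |a + b * t| ≤ 1 / 32} ∪
        ({t : ℝ | 4 < |t|} ∪ {t : ℝ | |c + e * t| ≤ 1 / 64}) := by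
      intro t ht
      rw [hS, Set.compl_inter, Set.compl_inter] at ht
      rcases ht with h | h | h
      · left
        rw [Set.mem_compl_iff, Set.mem_ofPred_eq, not_lt] at h
        exact h
      · right; left
        rw [Set.mem_compl_iff, Set.mem_ofPred_eq, not_le] at h
        exact h
      · right; right
        rw [Set.mem_compl_iff, Set.mem_ofPred_eq, not_lt] at h
        exact h
    have b1 := ball hab (s := 1 / 32) (by norm_num)
    have b2 := gauss_tail (t := 4) (by norm_num)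
    have b3 := ball hce (s := 1 / 64) (by norm_num)
    have hexp : 2 * Real.exp (-4 ^ 2 / 2) ≤ 1 / 8 := by
      have h1 : (-4 ^ 2 / 2 : ℝ) = -8 := by norm_num
      rw [h1, Real.exp_neg]
      have h2 := Real.quadratic_le_exp_of_nonneg (x := 8) (by norm_num)
      have h3 : (Real.exp 8)⁻¹ ≤ (41 : ℝ)⁻¹ := by
        apply inv_anti₀ (by norm_num)
        linarith
      have h4 : (41 : ℝ)⁻¹ ≤ 1 / 16 := by norm_num
      linarith
    calc γ1 Sᶜ ≤ _ := measure_mono hsub
      _ ≤ γ1 {t : ℝ | |a + b * t| ≤ 1 / 32} + (γ1 {t : ℝ | 4 < |t|} +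
          γ1 {t : ℝ | |c + e * t| ≤ 1 / 64}) :=
          (measure_union_le _ _).trans (add_le_add le_rfl (measure_union_le _ _))
      _ ≤ ENNReal.ofReal (8 * (1 / 32)) + (ENNReal.ofReal (1 / 8) +
          ENNReal.ofReal (8 * (1 / 64))) :=
          add_le_add b1 (add_le_add (b2.trans (ENNReal.ofReal_le_ofReal hexp)) b3)
      _ = _ := by
          rw [← ENNReal.ofReal_add (by norm_num) (by norm_num),
            ← ENNReal.ofReal_add (by norm_num) (by norm_num)]
          norm_num
  have hSge : ENNReal.ofReal (1 / 2) ≤ γ1 S := by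
    have h1 : (1 : ℝ≥0∞) = γ1 S + γ1 Sᶜ := by
      rw [measure_add_measure_compl mS, measure_univ]
    have h2 : (1 : ℝ≥0∞) ≤ γ1 S + ENNReal.ofReal (1 / 2) := by
      rw [h1]
      exact add_le_add le_rfl hcompl
    have h3 : (1 : ℝ≥0∞) = ENNReal.ofReal (1 / 2) + ENNReal.ofReal (1 / 2) := by
      rw [← ENNReal.ofReal_add (by norm_num) (by norm_num), ← ENNReal.ofReal_one]
      congr 1
      norm_num
    rw [h3] at h2
    exact (ENNReal.add_le_add_iff_right ENNReal.ofReal_ne_top).1 h2
  have hpt : ∀ t ∈ S, p8 (1 / 160) ≤ p8 ((a + b * t) / (c + e * t)) := by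
    intro t ht
    obtain ⟨h1, h2, h3⟩ := ht
    rw [Set.mem_ofPred_eq] at h1 h2 h3
    apply p8_mono
    rw [abs_div (a + b * t)]
    have h4 : |c + e * t| ≤ 5 := by
      have h5 := abs_add_le c (e * t)
      rw [abs_mul] at h5
      have hc : |c| ≤ 1 := by have := abs_nonneg e; linarith
      have he : |e| ≤ 1 := by have := abs_nonneg c; linarith
      have := abs_nonneg t
      have := abs_nonneg e
      nlinarith
    have h5 : 0 < |c + e * t| := by linarith
    rw [abs_of_pos (by norm_num : (0 : ℝ) < 1 / 160), le_div_iff₀ h5]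
    linarith
  calc p8 (1 / 160) * ENNReal.ofReal (1 / 2) ≤ p8 (1 / 160) * γ1 S := mul_le_mul_right hSge _
    _ = ∫⁻ _t in S, p8 (1 / 160) ∂γ1 := by rw [setLIntegral_const]
    _ ≤ ∫⁻ t in S, p8 ((a + b * t) / (c + e * t)) ∂γ1 :=
        setLIntegral_mono' mS hpt
    _ ≤ _ := setLIntegral_le_lintegral _ _

theorem aff_norm : ∃ C : ℝ, 0 < C ∧ ∀ a b c e : ℝ, |a| + |b| = 1 → |c| + |e| = 1 →
    ∫⁻ t, p8 ((a + b * t) / (c + e * t)) ^ 2 ∂γ1 ≤
      ENNReal.ofReal C * (∫⁻ t, p8 ((a + b * t) / (c + e * t)) ∂γ1) ^ 2 := by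
  set κ : ℝ := (|(1 / 160 : ℝ)| ^ (1 / 8 : ℝ)) * (1 / 2) with hκ
  have hκ0 : 0 < κ := by
    rw [hκ]
    have : (0 : ℝ) < |(1 / 160 : ℝ)| := by norm_num
    positivity
  have hM := M0_nonneg
  refine ⟨(M0 + 9) / κ ^ 2, by positivity, fun a b c e hab hce => ?_⟩
  have hlow := lower hab hce
  have h1 : p8 (1 / 160) * ENNReal.ofReal (1 / 2) = ENNReal.ofReal κ := by
    rw [hκ]
    unfold p8
    rw [← ENNReal.ofReal_mul (by positivity)]
  rw [h1] at hlow
  calc _ ≤ ENNReal.ofReal (M0 + 9) := upper hab hce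
    _ = ENNReal.ofReal ((M0 + 9) / κ ^ 2) * (ENNReal.ofReal κ) ^ 2 := by
        rw [← ENNReal.ofReal_pow hκ0.le, ← ENNReal.ofReal_mul (by positivity)]
        congr 1
        field_simp
    _ ≤ _ := by
        apply mul_le_mul_right
        exact pow_le_pow_left₀ (zero_le) hlow 2

theorem aff : AffStmt := by
  obtain ⟨C, hC, h⟩ := aff_norm
  refine ⟨C, hC, fun a b c e => ?_⟩
  by_cases hab : |a| + |b| = 0
  · have ha : a = 0 := by
      have := abs_nonneg a; have := abs_nonneg b
      exact abs_eq_zero.1 (by linarith)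
    have hb : b = 0 := by
      have := abs_nonneg a; have := abs_nonneg b
      exact abs_eq_zero.1 (by linarith)
    subst ha hb
    simp [p8_zero]
  by_cases hce : |c| + |e| = 0
  · have hc : c = 0 := by
      have := abs_nonneg c; have := abs_nonneg e
      exact abs_eq_zero.1 (by linarith)
    have he : e = 0 := by
      have := abs_nonneg c; have := abs_nonneg e
      exact abs_eq_zero.1 (by linarith)
    subst hc he
    simp [p8_zero]
  set N : ℝ := |a| + |b| with hN
  set K : ℝ := |c| + |e| with hK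
  have hN0 : 0 < N := lt_of_le_of_ne (by positivity) (Ne.symm hab)
  have hK0 : 0 < K := lt_of_le_of_ne (by positivity) (Ne.symm hce)
  have h1 : |a / N| + |b / N| = 1 := by
    rw [abs_div, abs_div, abs_of_pos hN0, ← add_div, ← hN, div_self hN0.ne']
  have h2 : |c / K| + |e / K| = 1 := by
    rw [abs_div, abs_div, abs_of_pos hK0, ← add_div, ← hK, div_self hK0.ne']
  have h3 := h _ _ _ _ h1 h2
  have h4 : ∀ t : ℝ, p8 ((a + b * t) / (c + e * t)) =
      p8 (N / K) * p8 ((a / N + b / N * t) / (c / K + e / K * t)) := by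
    intro t
    rw [← p8_mul]
    congr 1
    have e1 : a / N + b / N * t = (a + b * t) / N := by ring
    have e2 : c / K + e / K * t = (c + e * t) / K := by ring
    rw [e1, e2]
    by_cases h0 : c + e * t = 0
    · rw [h0]; simp
    · field_simp
  have hm : Measurable fun t : ℝ => p8 ((a / N + b / N * t) / (c / K + e / K * t)) :=
    measurable_p8.comp (by fun_prop)
  simp_rw [h4, mul_pow]
  rw [lintegral_const_mul _ (hm.pow_const 2), lintegral_const_mul _ hm, mul_pow]
  calc _ ≤ p8 (N / K) ^ 2 * _ := mul_le_mul_right h3 _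
    _ = _ := by ring

end Pool.Agent.Mob.H85
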