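import Pool.Agent.Mob.Stmts

/-!
# DEC: decoupling at two sites
-/

set_option autoImplicit false
set_option linter.unusedSectionVars false

open MeasureTheory ProbabilityTheory Function

open scoped ENNReal BigOperators

noncomputable section

namespace Pool.Agent.Mob.H85

open Pool.Agent.Anderson Pool.Agent.Loc Pool.Agent.Helper54.Bal Pool.Agent.Mob

variable {d : ℕ}

/-! ### Cauchy-Schwarz -/

theorem sq_rpow_half (x : ℝ≥0∞) : (x ^ (2 : ℕ)) ^ (1 / 2 : ℝ) = x := by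
  rw [← ENNReal.rpow_natCast, ← ENNReal.rpow_mul]
  norm_num

theorem csn {α : Type*} [MeasurableSpace α] {m : Measure α} {f g : α → ℝ≥0∞}
    (hf : Measurable f) (hg : Measurable g) {C A B : ℝ≥0∞}
    (h1 : ∫⁻ x, f x ^ 2 ∂m ≤ C * A ^ 2) (h2 : ∫⁻ x, g x ^ 2 ∂m ≤ C * B ^ 2) :
    ∫⁻ x, f x * g x ∂m ≤ C * A * B := by
  have h := ENNReal.lintegral_mul_le_Lp_mul_Lq m (p := 2) (q := 2)
    (Real.HolderConjugate.two_two) hf.aemeasurable hg.aemeasurable
  have e : ∀ F : α → ℝ≥0∞, ∫⁻ x, F x ^ (2 : ℝ) ∂m = ∫⁻ x, F x ^ 2 ∂m := by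
    intro F
    apply lintegral_congr
    intro x
    rw [← ENNReal.rpow_natCast]
    norm_num
  rw [e f, e g] at h
  have h' : ∫⁻ x, f x * g x ∂m ≤
      (∫⁻ x, f x ^ 2 ∂m) ^ (1 / 2 : ℝ) * (∫⁻ x, g x ^ 2 ∂m) ^ (1 / 2 : ℝ) := h
  refine h'.trans ?_
  have b1 : (∫⁻ x, f x ^ 2 ∂m) ^ (1 / 2 : ℝ) ≤ C ^ (1 / 2 : ℝ) * A := by
    calc _ ≤ (C * A ^ 2) ^ (1 / 2 : ℝ) := ENNReal.rpow_le_rpow h1 (by norm_num)
      _ = _ := by
        rw [ENNReal.mul_rpow_of_nonneg _ _ (by norm_num), sq_rpow_half]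
  have b2 : (∫⁻ x, g x ^ 2 ∂m) ^ (1 / 2 : ℝ) ≤ C ^ (1 / 2 : ℝ) * B := by
    calc _ ≤ (C * B ^ 2) ^ (1 / 2 : ℝ) := ENNReal.rpow_le_rpow h2 (by norm_num)
      _ = _ := by
        rw [ENNReal.mul_rpow_of_nonneg _ _ (by norm_num), sq_rpow_half]
  calc _ ≤ C ^ (1 / 2 : ℝ) * A * (C ^ (1 / 2 : ℝ) * B) := mul_le_mul' b1 b2
    _ = C ^ (1 / 2 : ℝ) * C ^ (1 / 2 : ℝ) * A * B := by ring
    _ = C * A * B := by
        have : C ^ (1 / 2 : ℝ) * C ^ (1 / 2 : ℝ) = C := by
          rw [← sq, ← ENNReal.rpow_natCast, ← ENNReal.rpow_mul]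
          norm_num
        rw [this]

/-- reverse Hölder in two variables from reverse Hölder in each of them -/
theorem two_var {ν : Measure ℝ} [SFinite ν] {f : ℝ × ℝ → ℝ≥0∞} (hf : Measurable f) {C : ℝ≥0∞}
    (h1 : ∀ s, ∫⁻ t, f (s, t) ^ 2 ∂ν ≤ C * (∫⁻ t, f (s, t) ∂ν) ^ 2)
    (h2 : ∀ t, ∫⁻ s, f (s, t) ^ 2 ∂ν ≤ C * (∫⁻ s, f (s, t) ∂ν) ^ 2) :
    ∫⁻ s, ∫⁻ t, f (s, t) ^ 2 ∂ν ∂ν ≤ C * C * (∫⁻ s, ∫⁻ t, f (s, t) ∂ν ∂ν) ^ 2 := by
  have hs : ∀ s, Measurable fun t => f (s, t) := fun s => hf.comp (by fun_prop)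
  have ht : ∀ t, Measurable fun s => f (s, t) := fun t => hf.comp (by fun_prop)
  have hF : Measurable fun s => ∫⁻ t, f (s, t) ∂ν := hf.lintegral_prod_right'
  have hG : Measurable fun t => ∫⁻ s, f (s, t) ∂ν := hf.lintegral_prod_left'
  have hswap : ∫⁻ s, ∫⁻ t, f (s, t) ∂ν ∂ν = ∫⁻ t, ∫⁻ s, f (s, t) ∂ν ∂ν :=
    lintegral_lintegral_swap hf.aemeasurable
  have hm2 : Measurable fun p : ℝ × ℝ => f p * ∫⁻ t', f (p.1, t') ∂ν :=
    hf.mul (hF.comp measurable_fst)
  have step1 : ∫⁻ s, (∫⁻ t, f (s, t) ∂ν) ^ 2 ∂ν ≤ C * (∫⁻ s, ∫⁻ t, f (s, t) ∂ν ∂ν) ^ 2 := by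
    calc ∫⁻ s, (∫⁻ t, f (s, t) ∂ν) ^ 2 ∂ν
        = ∫⁻ s, ∫⁻ t, f (s, t) * ∫⁻ t', f (s, t') ∂ν ∂ν ∂ν := by
          apply lintegral_congr
          intro s
          rw [lintegral_mul_const _ (hs s), sq]
      _ = ∫⁻ t, ∫⁻ s, f (s, t) * ∫⁻ t', f (s, t') ∂ν ∂ν ∂ν := by
          exact lintegral_lintegral_swap (f := fun s t => f (s, t) * ∫⁻ t', f (s, t') ∂ν)
            hm2.aemeasurable
      _ = ∫⁻ t, ∫⁻ s, ∫⁻ t', f (s, t) * f (s, t') ∂ν ∂ν ∂ν := by
          apply lintegral_congr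
          intro t
          apply lintegral_congr
          intro s
          rw [lintegral_const_mul _ (hs s)]
      _ = ∫⁻ t, ∫⁻ t', ∫⁻ s, f (s, t) * f (s, t') ∂ν ∂ν ∂ν := by
          apply lintegral_congr
          intro t
          refine lintegral_lintegral_swap (f := fun s t' => f (s, t) * f (s, t')) ?_
          apply Measurable.aemeasurable
          exact ((ht t).comp measurable_fst).mul hf
      _ ≤ ∫⁻ t, ∫⁻ t', C * (∫⁻ s, f (s, t) ∂ν) * (∫⁻ s, f (s, t') ∂ν) ∂ν ∂ν := by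
          apply lintegral_mono
          intro t
          apply lintegral_mono
          intro t'
          exact csn (ht t) (ht t') (h2 t) (h2 t')
      _ = ∫⁻ t, C * (∫⁻ s, f (s, t) ∂ν) * (∫⁻ t', ∫⁻ s, f (s, t') ∂ν ∂ν) ∂ν := by
          apply lintegral_congr
          intro t
          rw [lintegral_const_mul _ hG]
      _ = C * (∫⁻ t, ∫⁻ s, f (s, t) ∂ν ∂ν) * (∫⁻ t', ∫⁻ s, f (s, t') ∂ν ∂ν) := by
          rw [lintegral_mul_const _ (hG.const_mul C), lintegral_const_mul _ hG]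
      _ = _ := by rw [hswap]; ring
  calc ∫⁻ s, ∫⁻ t, f (s, t) ^ 2 ∂ν ∂ν ≤ ∫⁻ s, C * (∫⁻ t, f (s, t) ∂ν) ^ 2 ∂ν :=
        lintegral_mono h1
    _ = C * ∫⁻ s, (∫⁻ t, f (s, t) ∂ν) ^ 2 ∂ν := lintegral_const_mul _ (hF.pow_const 2)
    _ ≤ C * (C * (∫⁻ s, ∫⁻ t, f (s, t) ∂ν ∂ν) ^ 2) := mul_le_mul_right step1 _
    _ = _ := by ring

/-! ### the Green function is a quotient of affine functions of each `V i` -/

theorem det_aff {n : Type*} [Fintype n] [DecidableEq n] (M : ℝ → Matrix n n ℝ) (i : n)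
    (v : n → ℝ) (h : ∀ t x, x ≠ i → ∀ y, M t x y = M 0 x y)
    (hv : ∀ t y, M t i y = M 0 i y + t * v y) :
    ∃ α β : ℝ, ∀ t, (M t).det = α + β * t := by
  refine ⟨(M 0).det, ((M 0).updateRow i v).det, fun t => ?_⟩
  have key : M t = (M 0).updateRow i (M 0 i + t • v) := by
    ext x y
    by_cases hx : x = i
    · subst hx
      rw [Matrix.updateRow_self, hv t y]
      simp
    · rw [Matrix.updateRow_ne hx, h t x hx y]
  rw [key, Matrix.det_updateRow_add, Matrix.det_updateRow_smul, Matrix.updateRow_eq_self]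
  ring

theorem RM_update_ne (V : Site d → ℝ) (Λ : Finset (Site d)) (E : ℝ) {i : Site d} (hi : i ∈ Λ)
    (t : ℝ) (x : Λ) (hx : x ≠ ⟨i, hi⟩) (y : Λ) :
    RM (update V i t) Λ E x y = RM (update V i 0) Λ E x y := by
  have hx' : (x : Site d) ≠ i := fun h => hx (Subtype.ext h)
  simp only [RM, HM, Matrix.of_apply, Matrix.sub_apply, Matrix.smul_apply, update_of_ne hx']

theorem RM_update_eq (V : Site d → ℝ) (Λ : Finset (Site d)) (E : ℝ) {i : Site d} (hi : i ∈ Λ)
    (t : ℝ) (y : Λ) :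
    RM (update V i t) Λ E ⟨i, hi⟩ y = RM (update V i 0) Λ E ⟨i, hi⟩ y +
      t * (if (⟨i, hi⟩ : Λ) = y then -1 else 0) := by
  simp only [RM, HM, Matrix.of_apply, Matrix.sub_apply, Matrix.smul_apply, update_self]
  by_cases hy : (⟨i, hi⟩ : Λ) = y
  · simp [hy]
    ring
  · simp [hy]

theorem gr_update (V : Site d → ℝ) (Λ : Finset (Site d)) (E : ℝ) (a b i : Site d) :
    ∃ α β γ δ : ℝ, ∀ t, gr (update V i t) Λ E a b = (α + β * t) / (γ + δ * t) := by
  by_cases hab : a ∈ Λ ∧ b ∈ Λ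
  · by_cases hi : i ∈ Λ
    · obtain ⟨γ, δ, h1⟩ := det_aff (fun t => RM (update V i t) Λ E) ⟨i, hi⟩ _
        (fun t x hx y => RM_update_ne V Λ E hi t x hx y) (fun t y => RM_update_eq V Λ E hi t y)
      set a' : Λ := ⟨a, hab.1⟩ with ha'
      set b' : Λ := ⟨b, hab.2⟩ with hb'
      have h2 : ∃ α β : ℝ, ∀ t, ((RM (update V i t) Λ E).updateRow b' (Pi.single a' 1)).det =
          α + β * t := by
        apply det_aff (fun t => (RM (update V i t) Λ E).updateRow b' (Pi.single a' 1)) ⟨i, hi⟩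
          (fun y => if b' = ⟨i, hi⟩ then 0 else (if (⟨i, hi⟩ : Λ) = y then -1 else 0))
        · intro t x hx y
          by_cases hb : x = b'
          · subst hb
            rw [Matrix.updateRow_self, Matrix.updateRow_self]
          · rw [Matrix.updateRow_ne hb, Matrix.updateRow_ne hb]
            exact RM_update_ne V Λ E hi t x hx y
        · intro t y
          by_cases hb : b' = ⟨i, hi⟩
          · rw [← hb, Matrix.updateRow_self, Matrix.updateRow_self]
            simp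
          · have hb2 : (⟨i, hi⟩ : Λ) ≠ b' := fun h => hb h.symm
            rw [Matrix.updateRow_ne hb2, Matrix.updateRow_ne hb2, if_neg hb]
            exact RM_update_eq V Λ E hi t y
      obtain ⟨α, β, h2⟩ := h2
      refine ⟨α, β, γ, δ, fun t => ?_⟩
      rw [gr_eq_adj hab.1 hab.2, Matrix.adjugate_apply, ← ha', ← hb', h2 t, h1 t,
        div_eq_mul_inv, mul_comm]
    · refine ⟨gr V Λ E a b, 0, 1, 0, fun t => ?_⟩
      have h1 : gr (update V i t) Λ E a b = gr V Λ E a b := by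
        apply gr_congr
        intro x hx
        have : x ≠ i := fun h => hi (h ▸ hx)
        rw [update_of_ne this]
      rw [h1]
      simp
  · refine ⟨0, 0, 1, 0, fun t => ?_⟩
    unfold gr
    rw [dif_neg hab]
    simp

/-- reverse Hölder in one variable for the Green function -/
theorem rh1 {C : ℝ} (hA : ∀ a b c e : ℝ,
      ∫⁻ t, p8 ((a + b * t) / (c + e * t)) ^ 2 ∂γ1 ≤
        ENNReal.ofReal C * (∫⁻ t, p8 ((a + b * t) / (c + e * t)) ∂γ1) ^ 2)
    (σ : ℝ) (V : Site d → ℝ) (Λ : Finset (Site d)) (E : ℝ) (a b i : Site d) :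
    ∫⁻ t, pg Λ E a b (update V i t) ^ 2 ∂(gl σ) ≤
      ENNReal.ofReal C * (∫⁻ t, pg Λ E a b (update V i t) ∂(gl σ)) ^ 2 := by
  obtain ⟨α, β, γ, δ, h⟩ := gr_update V Λ E a b i
  have h1 : ∀ t, pg Λ E a b (update V i t) = p8 ((α + β * t) / (γ + δ * t)) := by
    intro t
    unfold pg
    rw [h t]
  simp_rw [h1]
  have hm : Measurable fun t : ℝ => p8 ((α + β * t) / (γ + δ * t)) :=
    measurable_p8.comp (by fun_prop)
  have hσ : Measurable fun t : ℝ => σ * t := by fun_prop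
  unfold gl
  rw [lintegral_map (hm.pow_const 2) hσ, lintegral_map hm hσ]
  have h2 := hA α (β * σ) γ (δ * σ)
  have h3 : ∀ t : ℝ, (α + β * (σ * t)) / (γ + δ * (σ * t)) =
      (α + β * σ * t) / (γ + δ * σ * t) := by
    intro t
    ring_nf
  simp_rw [h3]
  exact h2

theorem measurable_upd2 (V : Site d → ℝ) (i j : Site d) :
    Measurable fun z : ℝ × ℝ => update (update V i z.1) j z.2 := by
  rw [measurable_pi_iff]
  intro w
  by_cases h1 : w = j
  · subst h1; simp only [update_self]; exact measurable_snd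
  · simp only [update_of_ne h1]
    by_cases h2 : w = i
    · subst h2; simp only [update_self]; exact measurable_fst
    · simp only [update_of_ne h2]; exact measurable_const

theorem lmarg2 {ν : Measure ℝ} [IsProbabilityMeasure ν] {F : (Site d → ℝ) → ℝ≥0∞}
    (hF : Measurable F) {i j : Site d} (hij : i ≠ j) (V : Site d → ℝ) :
    (∫⋯∫⁻_{i, j}, F ∂(fun _ => ν)) V =
      ∫⁻ s, ∫⁻ t, F (update (update V i s) j t) ∂ν ∂ν := by
  have hmem : i ∉ ({j} : Finset (Site d)) := by simpa using hij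
  rw [lmarginal_insert _ hF hmem, lmarginal_singleton]

theorem dec (h : AffStmt) : DecStmt := by
  obtain ⟨C, hC, hA⟩ := h
  refine ⟨(C + 1) ^ 2, by positivity, ?_⟩
  intro d σ Λ₁ Λ₂ E a b c e i j V
  have hc1 : ENNReal.ofReal C ≤ ENNReal.ofReal ((C + 1) ^ 2) := by
    apply ENNReal.ofReal_le_ofReal
    nlinarith
  have hc2 : ENNReal.ofReal C * ENNReal.ofReal C ≤ ENNReal.ofReal ((C + 1) ^ 2) := by
    rw [← ENNReal.ofReal_mul hC.le]
    apply ENNReal.ofReal_le_ofReal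
    nlinarith
  have m1 := measurable_pg (d := d) Λ₁ E a b
  have m2 := measurable_pg (d := d) Λ₂ E c e
  by_cases hij : i = j
  · subst hij
    rw [Finset.insert_eq_of_mem (Finset.mem_singleton_self i), lmarginal_singleton,
      lmarginal_singleton, lmarginal_singleton]
    have r1 := rh1 hA σ V Λ₁ E a b i
    have r2 := rh1 hA σ V Λ₂ E c e i
    have h1 := csn (m1.comp (measurable_update V)) (m2.comp (measurable_update V)) r1 r2
    refine le_trans h1 ?_
    rw [mul_assoc]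
    exact mul_le_mul_left hc1 _
  · rw [lmarg2 (F := fun V => pg Λ₁ E a b V * pg Λ₂ E c e V) (m1.mul m2) hij, lmarg2 m1 hij,
      lmarg2 m2 hij]
    have hu := measurable_upd2 V i j
    have hcomm : ∀ s t : ℝ, update (update V i s) j t = update (update V j t) i s :=
      fun s t => update_comm (fun h => hij h) s t V
    have t1 := two_var (ν := gl σ) (m1.comp hu) (C := ENNReal.ofReal C)
      (fun s => rh1 hA σ (update V i s) Λ₁ E a b j)
      (fun t => by
        have := rh1 hA σ (update V j t) Λ₁ E a b i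
        simp only [comp_apply, hcomm]
        exact this)
    have t2 := two_var (ν := gl σ) (m2.comp hu) (C := ENNReal.ofReal C)
      (fun s => rh1 hA σ (update V i s) Λ₂ E c e j)
      (fun t => by
        have := rh1 hA σ (update V j t) Λ₂ E c e i
        simp only [comp_apply, hcomm]
        exact this)
    have q1 : ∫⁻ z, ((pg Λ₁ E a b ∘ fun z : ℝ × ℝ => update (update V i z.1) j z.2) z) ^ 2
        ∂((gl σ).prod (gl σ)) ≤ ENNReal.ofReal C * ENNReal.ofReal C *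
          (∫⁻ s, ∫⁻ t, pg Λ₁ E a b (update (update V i s) j t) ∂(gl σ) ∂(gl σ)) ^ 2 := by
      rw [lintegral_prod _ ((m1.comp hu).pow_const 2).aemeasurable]
      exact t1
    have q2 : ∫⁻ z, ((pg Λ₂ E c e ∘ fun z : ℝ × ℝ => update (update V i z.1) j z.2) z) ^ 2
        ∂((gl σ).prod (gl σ)) ≤ ENNReal.ofReal C * ENNReal.ofReal C *
          (∫⁻ s, ∫⁻ t, pg Λ₂ E c e (update (update V i s) j t) ∂(gl σ) ∂(gl σ)) ^ 2 := by
      rw [lintegral_prod _ ((m2.comp hu).pow_const 2).aemeasurable]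
      exact t2
    have h1 := csn (m1.comp hu) (m2.comp hu) q1 q2
    refine le_trans (le_of_eq (lintegral_prod (fun z : ℝ × ℝ =>
      pg Λ₁ E a b (update (update V i z.1) j z.2) * pg Λ₂ E c e (update (update V i z.1) j z.2))
      ((m1.comp hu).mul (m2.comp hu)).aemeasurable).symm) ?_
    refine le_trans h1 ?_
    rw [mul_assoc]
    exact mul_le_mul_left hc2 _

end Pool.Agent.Mob.H85
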